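import Pool.Agent.H33.HC.TB
import Pool.Agent.H3.CV.GC
import Pool.Agent.H86.CV.DV

/-!
# DAPC: the diagonal term with shifts
-/

set_option autoImplicit false

open NumberField Complex Filter Topology MeasureTheory
open scoped ContDiff nonZeroDivisors

namespace Pool.Agent.H1.HC

open Pool.Agent.H28.RC Pool.Agent.H37.CV Pool.Agent.H33.HH Pool.Agent.H33.HC

noncomputable section

theorem one_le_nm' {K : Type} [Field K] [NumberField K] {I : Ideal (𝓞 K)} (h : I ≠ ⊥) :
    1 ≤ nm I := by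
  have h1 : Ideal.absNorm I ≠ 0 := by
    rw [Ne, Ideal.absNorm_eq_zero_iff]
    exact h
  unfold nm
  exact_mod_cast Nat.one_le_iff_ne_zero.2 h1

theorem one_le_nS' {K : Type} [Field K] [NumberField K] (S : Finset (PrI K)) :
    1 ≤ nS np S := by
  rw [← Pool.Agent.H3.CV.nm_idS]
  exact one_le_nm' (Pool.Agent.H3.CV.idS_ne S)

open scoped Classical in
theorem DDC_bound {K : Type} [Field K] [NumberField K] :
    ∃ C : ℝ, 0 ≤ C ∧ ∀ (P Y B : ℝ) (f : Ideal (𝓞 K) → Ideal (𝓞 K) → ℂ)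
      (S T : Finset (PrI K)), 1 ≤ Y → 0 ≤ B →
      (∀ m n, n ≠ ⊥ → nm n ≤ Y → ‖f m n‖ ≤ B * (nm n)⁻¹) → (∀ m n, Y < nm m → f m n = 0) →
      (∀ m n, Y < nm n → f m n = 0) →
      ‖sumZ P fun m => sumZ P fun n => if idS S * m = idS T * n then f m n else 0‖ ≤
        C * B * (1 + Real.log Y) * (nS np (S ∩ T) / nS np S) := by
  obtain ⟨C, hC⟩ := (Pool.Agent.H86.CV.pf_DV K).2
  refine ⟨|C|, abs_nonneg _, ?_⟩
  intro P Y M f S T hY hM0 hfB hfm hfn
  have hA := one_le_nS' S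
  have hB := one_le_nS' T
  have hE := one_le_nS' (S ∩ T)
  have hD := one_le_nS' (S \ T)
  -- the finite set of the ideals of norm at most Y
  have hfin : {m : NI K | nm m.1 ≤ Y}.Finite := by
    have h1 := Ideal.finite_setOfPred_absNorm_le (S := 𝓞 K) ⌊Y⌋₊
    refine (h1.preimage (f := fun m : NI K => m.1) Subtype.val_injective.injOn).subset ?_
    intro m hm
    exact Nat.le_floor hm
  set F : Finset (NI K) := hfin.toFinset with hF
  have hout : ∀ m : NI K, m ∉ F → Y < nm m.1 := by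
    intro m hm
    exact not_le.1 fun h => hm (hfin.mem_toFinset.2 h)
  have hin : ∀ m : NI K, m ∈ F → nm m.1 ≤ Y := fun m hm => hfin.mem_toFinset.1 hm
  set t : NI K → NI K → ℂ := fun m n => if Cp P m.1 then (if Cp P n.1 then
    (if idS S * m.1 = idS T * n.1 then f m.1 n.1 else 0) else 0) else 0 with ht
  have hDD : (sumZ P fun m => sumZ P fun n => if idS S * m = idS T * n then f m n else 0) =
      ∑ m ∈ F, ∑ n ∈ F, t m n := by
    unfold sumZ
    have hinner : ∀ m : NI K, (if Cp P m.1 then (∑' I : NI K, if Cp P I.1 then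
        (if idS S * m.1 = idS T * I.1 then f m.1 I.1 else 0) else 0) else 0) =
        ∑ n ∈ F, t m n := by
      intro m
      by_cases h : Cp P m.1
      · rw [if_pos h, tsum_eq_sum (s := F)]
        · refine Finset.sum_congr rfl fun n _ => ?_
          simp only [ht, if_pos h]
        · intro n hn
          rw [hfn _ _ (hout n hn)]
          simp
      · rw [if_neg h]
        simp only [ht, if_neg h, Finset.sum_const_zero]
    rw [tsum_congr hinner, tsum_eq_sum]
    intro m hm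
    refine Finset.sum_eq_zero fun n _ => ?_
    simp only [ht, hfm _ _ (hout m hm)]
    simp
  -- the bound of one term
  have hterm : ∀ m : NI K, ∀ n ∈ F, ‖t m n‖ ≤ if idS S * m.1 = idS T * n.1 then
      M * (nm n.1)⁻¹ else 0 := by
    intro m n hnF
    have hn := one_le_nm' n.2
    have h0 : 0 ≤ if idS S * m.1 = idS T * n.1 then M * (nm n.1)⁻¹ else 0 := by
      split_ifs
      · positivity
      · exact le_refl _
    simp only [ht]
    by_cases h1 : Cp P m.1
    · by_cases h2 : Cp P n.1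
      · rw [if_pos h1, if_pos h2]
        by_cases h3 : idS S * m.1 = idS T * n.1
        · rw [if_pos h3, if_pos h3]
          exact hfB _ _ n.2 (hin n hnF)
        · rw [if_neg h3, if_neg h3, norm_zero]
      · rw [if_pos h1, if_neg h2, norm_zero]
        exact h0
    · rw [if_neg h1, norm_zero]
      exact h0
  -- the ideals `n` which occur
  set F' : Finset (NI K) := F.filter fun n => idS (S \ T) ∣ n.1 with hF'
  have hdiv : ∀ m n : NI K, idS S * m.1 = idS T * n.1 → idS (S \ T) ∣ n.1 := by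
    intro m n h
    refine Pool.Agent.H3.CV.idS_dvd fun p hp => ?_
    rw [Finset.mem_sdiff] at hp
    have hpr : Prime p.1 := (Ideal.prime_iff_isPrime p.2.2).2 p.2.1
    have h1 : p.1 ∣ idS S := by
      unfold idS
      exact Finset.dvd_prod_of_mem _ hp.1
    have h2 : p.1 ∣ idS T * n.1 := by
      rw [← h]
      exact Dvd.dvd.mul_right h1 _
    rcases hpr.dvd_or_dvd h2 with h3 | h3
    · exact absurd (Pool.Agent.H3.CV.idS_le (Ideal.dvd_iff_le.1 h3)) hp.2
    · exact Ideal.dvd_iff_le.1 h3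
  have hcol : ∀ n ∈ F, ∑ m ∈ F, (if idS S * m.1 = idS T * n.1 then
      M * (nm n.1)⁻¹ else 0) ≤
      if idS (S \ T) ∣ n.1 then M * (nm n.1)⁻¹ else 0 := by
    intro n _
    have hn := one_le_nm' n.2
    by_cases hex : ∃ m : NI K, idS S * m.1 = idS T * n.1
    · obtain ⟨m, hm⟩ := hex
      rw [if_pos (hdiv m n hm)]
      have h1 : ∀ x : NI K, (if idS S * x.1 = idS T * n.1 then
          M * (nm n.1)⁻¹ else 0) =
          if m = x then M * (nm n.1)⁻¹ else 0 := by
        intro x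
        by_cases hx : m = x
        · rw [if_pos hx, if_pos (hx ▸ hm)]
        · rw [if_neg hx, if_neg]
          intro h
          apply hx
          apply Subtype.ext
          have h2 : idS S * m.1 = idS S * x.1 := by rw [hm, h]
          exact mul_left_cancel₀ (Pool.Agent.H3.CV.idS_ne S) h2
      rw [Finset.sum_congr rfl fun x _ => h1 x, Finset.sum_ite_eq]
      split_ifs
      · exact le_refl _
      · positivity
    · have h1 : ∑ m ∈ F, (if idS S * m.1 = idS T * n.1 then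
          M * (nm n.1)⁻¹ else 0) = 0 := by
        refine Finset.sum_eq_zero fun m _ => ?_
        rw [if_neg fun h => hex ⟨m, h⟩]
      rw [h1]
      split_ifs
      · positivity
      · exact le_refl _
  -- the quotients
  have hq : ∀ n : NI K, idS (S \ T) ∣ n.1 → ∃ q : Ideal (𝓞 K), n.1 = idS (S \ T) * q :=
    fun n h => h
  choose! q hq' using hq
  have hsum : ∑ n ∈ F', (nm n.1)⁻¹ ≤ (nS np (S \ T))⁻¹ * (|C| * (1 + Real.log Y)) := by
    have hqn : ∀ n ∈ F', nm n.1 = nS np (S \ T) * nm (q n) := by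
      intro n hn
      have h1 := hq' n (Finset.mem_filter.1 hn).2
      conv_lhs => rw [h1]
      rw [Pool.Agent.H3.CV.nm_mul, Pool.Agent.H3.CV.nm_idS]
    have hinj : Set.InjOn q F' := by
      intro n hn n' hn' h
      have h1 := hq' n (Finset.mem_filter.1 hn).2
      have h2 := hq' n' (Finset.mem_filter.1 hn').2
      apply Subtype.ext
      rw [h1, h2, h]
    have h2 : ∑ n ∈ F', (nm n.1)⁻¹ = (nS np (S \ T))⁻¹ * ∑ I ∈ F'.image q, (nm I)⁻¹ := by
      rw [Finset.sum_image hinj, Finset.mul_sum]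
      refine Finset.sum_congr rfl fun n hn => ?_
      rw [hqn n hn, mul_inv]
    rw [h2]
    refine mul_le_mul_of_nonneg_left ?_ (by positivity)
    have h3 := (hC Y (F'.image q) hY ?_).2
    · have h4 : 0 ≤ Real.log Y := Real.log_nonneg hY
      exact h3.trans (mul_le_mul_of_nonneg_right (le_abs_self _) (by linarith))
    · intro I hI
      obtain ⟨n, hn, rfl⟩ := Finset.mem_image.1 hI
      have hne : q n ≠ ⊥ := by
        intro h0
        have h1 := hq' n (Finset.mem_filter.1 hn).2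
        rw [h0, Ideal.mul_bot] at h1
        exact n.2 h1
      refine ⟨hne, ?_⟩
      have h5 : nm n.1 ≤ Y := hin n (Finset.mem_filter.1 hn).1
      rw [hqn n hn] at h5
      have h6 := one_le_nm' hne
      nlinarith
  have hAB : nS np S = nS np (S \ T) * nS np (S ∩ T) := by
    unfold nS
    rw [← Finset.prod_union (Finset.disjoint_sdiff_inter S T), Finset.sdiff_union_inter]
  rw [hDD]
  calc ‖∑ m ∈ F, ∑ n ∈ F, t m n‖
      ≤ ∑ m ∈ F, ∑ n ∈ F, ‖t m n‖ :=
        (norm_sum_le _ _).trans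
          (Finset.sum_le_sum fun m _ => norm_sum_le _ _)
    _ ≤ ∑ m ∈ F, ∑ n ∈ F, (if idS S * m.1 = idS T * n.1 then
          M * (nm n.1)⁻¹ else 0) :=
        Finset.sum_le_sum fun m _ => Finset.sum_le_sum fun n hn => hterm m n hn
    _ = ∑ n ∈ F, ∑ m ∈ F, (if idS S * m.1 = idS T * n.1 then
          M * (nm n.1)⁻¹ else 0) := Finset.sum_comm
    _ ≤ ∑ n ∈ F, (if idS (S \ T) ∣ n.1 then M * (nm n.1)⁻¹ else 0) :=
        Finset.sum_le_sum hcol
    _ = ∑ n ∈ F', M * (nm n.1)⁻¹ := (Finset.sum_filter _ _).symm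
    _ = M * ∑ n ∈ F', (nm n.1)⁻¹ := by
        rw [Finset.mul_sum]
    _ ≤ M * ((nS np (S \ T))⁻¹ * (|C| * (1 + Real.log Y))) :=
        mul_le_mul_of_nonneg_left hsum hM0
    _ = |C| * M * (1 + Real.log Y) * (nS np (S ∩ T) / nS np S) := by
        rw [hAB]
        field_simp

/-- powers with small exponents -/
theorem cpow_bd {x : ℝ} (hx : 1 ≤ x) (w : ℂ) :
    ‖(x : ℂ) ^ w‖ ≤ Real.exp (‖w‖ * Real.log x) := by
  have hx0 : 0 < x := by linarith
  rw [Complex.norm_cpow_eq_rpow_re_of_pos hx0, Real.rpow_def_of_pos hx0, Real.exp_le_exp,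
    mul_comm]
  exact mul_le_mul_of_nonneg_right ((le_abs_self _).trans (Complex.abs_re_le_norm w))
    (Real.log_nonneg hx)

theorem cpow_bd' {x : ℝ} (hx : 1 ≤ x) (w : ℂ) :
    ‖(x : ℂ) ^ (-1 - w)‖ ≤ x⁻¹ * Real.exp (‖w‖ * Real.log x) := by
  have hx0 : 0 < x := by linarith
  have h0 : (x : ℂ) ≠ 0 := by exact_mod_cast hx0.ne'
  have h1 : (x : ℂ) ^ (-1 - w) = (x : ℂ)⁻¹ * (x : ℂ) ^ (-w) := by
    rw [sub_eq_add_neg, Complex.cpow_add _ _ h0, Complex.cpow_neg_one]
  rw [h1, norm_mul, norm_inv, Complex.norm_of_nonneg hx0.le]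
  refine mul_le_mul_of_nonneg_left ?_ (by positivity)
  have := cpow_bd hx (-w)
  rwa [norm_neg] at this

theorem pf_DAPC (h1 : T_GSC) (h2 : Pool.Agent.H33.HH.T_TWA) (h3 : Pool.Agent.H33.HH.T_IDF) :
    T_DAPC := by
  classical
  intro K _ _ _ P W G θ e C₀ hW hG hP hC₀
  obtain ⟨C₁, hC₁, hT⟩ := h2 K P W hW
  obtain ⟨C₂, hC₂, hD⟩ := DDC_bound (K := K)
  obtain ⟨hGs, hGb⟩ := h1 G hG
  obtain ⟨M, hM0, hM⟩ := hGb 0
  have he := hP.epos
  have hθ := hP.θpos
  obtain ⟨L, hL⟩ : ∃ L : ℝ, L = 1 + Real.log 6 + (1 + e) * 8 := ⟨_, rfl⟩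
  have h6 : 0 ≤ Real.log 6 := Real.log_nonneg (by norm_num)
  have hL0 : 0 ≤ L := by
    rw [hL]
    positivity
  obtain ⟨E₁, hE₁⟩ : ∃ E₁ : ℝ, E₁ = Real.exp (C₀ * θ) := ⟨_, rfl⟩
  obtain ⟨E₂, hE₂⟩ : ∃ E₂ : ℝ, E₂ = Real.exp (2 * C₀ * (2 + e)) := ⟨_, rfl⟩
  have hE₁0 : 0 < E₁ := hE₁ ▸ Real.exp_pos _
  have hE₂0 : 0 < E₂ := hE₂ ▸ Real.exp_pos _
  refine ⟨C₁ * (E₁ * E₁ * (C₂ * (E₂ * (M * M)) * L)), 1 / 8, max 6 (Real.exp (16 * C₀)),
    by positivity, by norm_num, le_trans (by norm_num) (le_max_left _ _), ?_⟩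
  intro Q hQ S hS T hT' α β u hAd
  have hQ6 : (6 : ℝ) ≤ Q := (le_max_left _ _).trans hQ
  have hQ1 : (1 : ℝ) ≤ Q := by linarith
  have hQ0 : 0 < Q := by linarith
  have hlQ : 0 < Real.log Q := Real.log_pos (by linarith)
  have hlQ16 : 16 * C₀ ≤ Real.log Q := by
    rw [Real.le_log_iff_exp_le hQ0]
    exact (le_max_right _ _).trans hQ
  have hsm : C₀ / Real.log Q ≤ 1 / 16 := by
    rw [div_le_iff₀ hlQ]
    linarith
  have hNr : ∀ (a : ℂ) (v : ℝ), ‖a‖ ≤ C₀ / Real.log Q → Nr (se a v) := by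
    intro a v ha
    unfold Nr se
    have h4 : (1 / 2 + a + (v : ℂ) * I).re = 1 / 2 + a.re := by
      simp
    rw [h4, add_sub_cancel_left]
    exact (Complex.abs_re_le_norm a).trans (ha.trans hsm)
  have hNα := hNr α u hAd.1
  have hNβ := hNr β (-u) hAd.2
  have hZ : 1 ≤ Q ^ (1 + e) := Real.one_le_rpow hQ1 (by linarith)
  have hZ0 : 0 < Q ^ (1 + e) := by linarith
  have hSd := h3 K P (Q ^ θ) (Real.one_le_rpow hQ1 hθ.le) S hS
  have hTd := h3 K P (Q ^ θ) (Real.one_le_rpow hQ1 hθ.le) T hT'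
  have hA := one_le_nS' S
  have hB := one_le_nS' T
  have hE := one_le_nS' (S ∩ T)
  have hMb : ∀ s : ℂ, Nr s → ∀ v : ℝ, ‖Gs G s v‖ ≤ M := by
    intro s hs v
    have := hM s hs v
    rwa [iteratedDeriv_zero] at this
  -- the small powers
  have hexp : ∀ (a : ℂ) (x c d : ℝ), ‖a‖ ≤ c * (C₀ / Real.log Q) → 0 ≤ c → 1 ≤ x →
      Real.log x ≤ d * Real.log Q → 0 ≤ d →
      Real.exp (‖a‖ * Real.log x) ≤ Real.exp (c * C₀ * d) := by
    intro a x c d ha hc hx hd hd0
    rw [Real.exp_le_exp]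
    calc ‖a‖ * Real.log x ≤ (c * (C₀ / Real.log Q)) * (d * Real.log Q) :=
          mul_le_mul ha hd (Real.log_nonneg hx) (by positivity)
      _ = c * C₀ * d := by
          field_simp
  have hlogθ : ∀ x : ℝ, 1 ≤ x → x ≤ Q ^ θ → Real.log x ≤ θ * Real.log Q := by
    intro x hx hxQ
    rw [← Real.log_rpow hQ0]
    exact Real.log_le_log (by linarith) hxQ
  -- the double sum
  have hin := hD P (6 * Q ^ (1 + e)) (E₂ * (M * M))
    (fun m n => ((nm n : ℝ) : ℂ) ^ (-1 - (α + β)) *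
        (Gs G (se α u) (nm m / Q ^ (1 + e)) * Gs G (se β (-u)) (nm n / Q ^ (1 + e)))) S T
    (by linarith) (by positivity) ?_ ?_ ?_
  rotate_left
  · intro m n hn hnY
    have hn1 := one_le_nm' hn
    have hn0 : 0 < nm n := by linarith
    have e1 := cpow_bd' hn1 (α + β)
    have e2 : Real.exp (‖α + β‖ * Real.log (nm n)) ≤ E₂ := by
      have h5 := hexp (α + β) (nm n) 2 (2 + e) ?_ (by norm_num) hn1 ?_ (by linarith)
      · rw [hE₂]
        exact h5
      · have h6 := norm_add_le α β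
        have h7 := hAd.1
        have h8 := hAd.2
        linarith
      · have h6 : Real.log (nm n) ≤ Real.log (6 * Q ^ (1 + e)) := Real.log_le_log hn0 hnY
        rw [Real.log_mul (by norm_num) hZ0.ne', Real.log_rpow hQ0] at h6
        have h7 : Real.log 6 ≤ Real.log Q := Real.log_le_log (by norm_num) hQ6
        linarith
    rw [norm_mul, norm_mul]
    calc ‖((nm n : ℝ) : ℂ) ^ (-1 - (α + β))‖ * (‖Gs G (se α u) (nm m / Q ^ (1 + e))‖ *
          ‖Gs G (se β (-u)) (nm n / Q ^ (1 + e))‖)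
        ≤ ((nm n)⁻¹ * E₂) * (M * M) := by
          refine mul_le_mul (e1.trans (mul_le_mul_of_nonneg_left e2 (by positivity)))
            (mul_le_mul (hMb _ hNα _) (hMb _ hNβ _) (norm_nonneg _) hM0) (by positivity)
            (by positivity)
      _ = E₂ * (M * M) * (nm n)⁻¹ := by ring
  · intro m n hm
    have h5 : 6 ≤ nm m / Q ^ (1 + e) := by
      rw [le_div_iff₀ hZ0]
      exact hm.le
    rw [(hGs _ hNα).2.2.1 _ h5, zero_mul, mul_zero]
  · intro m n hn
    have h5 : 6 ≤ nm n / Q ^ (1 + e) := by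
      rw [le_div_iff₀ hZ0]
      exact hn.le
    rw [(hGs _ hNβ).2.2.1 _ h5, mul_zero, mul_zero]
  -- the bound of the diagonal sum
  have ha : ‖((nm (idS S) : ℝ) : ℂ) ^ α‖ ≤ E₁ := by
    rw [hSd.2.2.1]
    refine (cpow_bd hA α).trans ?_
    have h5 := hexp α (nS np S) 1 θ (by rw [one_mul]; exact hAd.1) (by norm_num) hA
      (hlogθ _ hA hSd.2.2.2.2.1) hθ.le
    rw [hE₁]
    rwa [one_mul] at h5
  have hb : ‖((nm (idS T) : ℝ) : ℂ) ^ (-1 - α)‖ ≤ (nS np T)⁻¹ * E₁ := by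
    rw [hTd.2.2.1]
    refine (cpow_bd' hB α).trans (mul_le_mul_of_nonneg_left ?_ (by positivity))
    have h5 := hexp α (nS np T) 1 θ (by rw [one_mul]; exact hAd.1) (by norm_num) hB
      (hlogθ _ hB hTd.2.2.2.2.1) hθ.le
    rw [hE₁]
    rwa [one_mul] at h5
  have h8 : 1 ≤ Q ^ (1 / 8 : ℝ) := Real.one_le_rpow hQ1 (by norm_num)
  have hlog : 1 + Real.log (6 * Q ^ (1 + e)) ≤ L * Q ^ (1 / 8 : ℝ) := by
    rw [Real.log_mul (by norm_num) (by positivity), Real.log_rpow hQ0]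
    have h5 : Real.log Q ≤ Q ^ (1 / 8 : ℝ) / (1 / 8) :=
      Real.log_le_rpow_div hQ0.le (by norm_num)
    rw [hL]
    nlinarith
  have hdd : ‖Dd2 P (Q ^ (1 + e)) G (idS S) (idS T) α β u‖ ≤ E₁ * ((nS np T)⁻¹ * E₁) *
      (C₂ * (E₂ * (M * M)) * (L * Q ^ (1 / 8 : ℝ)) * (nS np (S ∩ T) / nS np S)) := by
    unfold Dd2
    rw [norm_mul, norm_mul]
    refine mul_le_mul (mul_le_mul ha hb (norm_nonneg _) hE₁0.le) ?_ (norm_nonneg _)
      (by positivity)
    refine hin.trans ?_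
    refine mul_le_mul_of_nonneg_right ?_ (by positivity)
    exact mul_le_mul_of_nonneg_left hlog (by positivity)
  have h4 := hT Q hQ1
  rw [norm_mul, Complex.norm_real, Real.norm_eq_abs]
  calc |TW K P Q W - rk K P * W1 W * Q ^ 2| *
        ‖Dd2 P (Q ^ (1 + e)) G (idS S) (idS T) α β u‖
      ≤ (C₁ * Q ^ (7 / 4 : ℝ)) * (E₁ * ((nS np T)⁻¹ * E₁) *
      (C₂ * (E₂ * (M * M)) * (L * Q ^ (1 / 8 : ℝ)) * (nS np (S ∩ T) / nS np S))) :=
        mul_le_mul h4 hdd (norm_nonneg _) (by positivity)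
    _ = C₁ * (E₁ * E₁ * (C₂ * (E₂ * (M * M)) * L)) * Er Q (1 / 8) S T := by
        have h9 : Q ^ (7 / 4 : ℝ) * Q ^ (1 / 8 : ℝ) = Q ^ (2 - 1 / 8 : ℝ) := by
          rw [← Real.rpow_add hQ0]
          norm_num
        unfold Er
        rw [← h9]
        have hA0 : nS np S ≠ 0 := by positivity
        have hB0 : nS np T ≠ 0 := by positivity
        field_simp

end

end Pool.Agent.H1.HC
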