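import Pool.Agent.H33.HC.TB
import Pool.Agent.H63.CRZ.MO
import Pool.Agent.H41.HH.GLk

/-!
# MOP: moments of `log (M / N(D))` over the squarefree ideals free of small primes
-/

set_option autoImplicit false

open NumberField MeasureTheory Set

namespace Pool.Agent.H1.HC

open Pool.Agent.H28.RC Pool.Agent.H37.CV Pool.Agent.H33.HH Pool.Agent.H65.CRZ
open Pool.Agent.H63.CRZ (gk gk_cont gk_nonneg int1 int2)
open Pool.Agent.H33.HC (T_MOP)

theorem np_le_nS {K : Type} [Field K] [NumberField K] {S : Finset (PrI K)} {p : PrI K}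
    (hp : p ∈ S) : np p ≤ nS np S := by
  classical
  unfold nS
  rw [← Finset.mul_prod_erase S np hp]
  refine le_mul_of_one_le_right (Pool.Agent.H96.CV.np_pos p).le ?_
  exact Pool.Agent.H96.CV.one_le_nS (S.erase p)

theorem GS_AP {K : Type} [Field K] [NumberField K] {P M x : ℝ} (hx : x ≤ M) :
    GS np (AP K P M) x = GS np (AP K P x) x := by
  rw [GS, GS]
  refine Finset.sum_congr ?_ fun _ _ => rfl
  ext S
  rw [DS, DS, Finset.mem_filter, Finset.mem_filter, Finset.mem_powerset, Finset.mem_powerset]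
  constructor
  · rintro ⟨h1, h2⟩
    refine ⟨fun p hp => ?_, h2⟩
    have h3 := Pool.Agent.H41.HH.mem_AP.1 (h1 hp)
    exact Pool.Agent.H41.HH.mem_AP.2 ⟨(np_le_nS hp).trans h2, h3.2⟩
  · rintro ⟨h1, h2⟩
    refine ⟨fun p hp => ?_, h2⟩
    have h3 := Pool.Agent.H41.HH.mem_AP.1 (h1 hp)
    exact Pool.Agent.H41.HH.mem_AP.2 ⟨h3.1.trans hx, h3.2⟩

open scoped Classical in
theorem GS_eq' {K : Type} [Field K] [NumberField K] {P M x : ℝ} (hx : x ≤ M) :
    GS np (AP K P M) x = ∑ D ∈ DP K P M, (if nS np D ≤ x then (fS np D)⁻¹ else 0) := by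
  rw [← Finset.sum_filter, GS]
  refine Finset.sum_congr ?_ fun _ _ => rfl
  ext S
  rw [Finset.mem_filter, DP, DS, DS, Finset.mem_filter, Finset.mem_filter]
  constructor
  · rintro ⟨h1, h2⟩
    exact ⟨⟨h1, h2.trans hx⟩, h2⟩
  · rintro ⟨⟨h1, _⟩, h2⟩
    exact ⟨h1, h2⟩

open scoped Classical in
theorem sum_eq' {K : Type} [Field K] [NumberField K] {P M : ℝ} (hM : 1 ≤ M) (k : ℕ) :
    Integrable (fun x => GS np (AP K P M) x * gk M k x) (volume.restrict (Icc 1 M)) ∧
    ∑ D ∈ DP K P M, Real.log (M / nS np D) ^ (k + 1) / fS np D =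
      ∫ x in Icc 1 M, GS np (AP K P M) x * gk M k x := by
  have hM0 : 0 < M := by linarith
  have hg : IntegrableOn (gk M k) (Icc 1 M) := (gk_cont hM0 le_rfl k).integrableOn_Icc
  have hi : ∀ D ∈ DP K P M, Integrable
      (fun x => (fS np D)⁻¹ * (Ici (nS np D)).indicator (gk M k) x)
      (volume.restrict (Icc 1 M)) := fun D _ =>
    (hg.indicator measurableSet_Ici).const_mul _
  have he : ∀ x ∈ Icc 1 M, GS np (AP K P M) x * gk M k x =
      ∑ D ∈ DP K P M, (fS np D)⁻¹ * (Ici (nS np D)).indicator (gk M k) x := by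
    intro x hx
    rw [GS_eq' hx.2, Finset.sum_mul]
    refine Finset.sum_congr rfl fun D _ => ?_
    by_cases hc : nS np D ≤ x
    · rw [if_pos hc, Set.indicator_of_mem (Set.mem_Ici.2 hc)]
    · rw [if_neg hc, Set.indicator_of_notMem (fun h => hc (Set.mem_Ici.1 h)), zero_mul, mul_zero]
  have h1 : ∑ D ∈ DP K P M, Real.log (M / nS np D) ^ (k + 1) / fS np D =
      ∫ x in Icc 1 M, ∑ D ∈ DP K P M, (fS np D)⁻¹ * (Ici (nS np D)).indicator (gk M k) x := by
    rw [integral_finsetSum _ hi]
    refine Finset.sum_congr rfl fun D hD => ?_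
    have hD1 := Pool.Agent.H96.CV.one_le_nS D
    have hD2 := (Pool.Agent.H41.HH.mem_DP.1 hD).2
    rw [integral_const_mul, setIntegral_indicator measurableSet_Ici]
    have hs : Icc (1 : ℝ) M ∩ Ici (nS np D) = Icc (nS np D) M := by
      ext x
      simp only [mem_inter_iff, mem_Icc, mem_Ici]
      constructor
      · rintro ⟨⟨_, h2⟩, h3⟩
        exact ⟨h3, h2⟩
      · rintro ⟨h2, h3⟩
        exact ⟨⟨hD1.trans h2, h3⟩, h2⟩
    rw [hs, int1 hD1 hD2 k, div_eq_inv_mul]
  refine ⟨?_, ?_⟩
  · refine Integrable.congr (integrable_finsetSum _ hi) ?_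
    refine (ae_restrict_iff' measurableSet_Icc).2 (Filter.Eventually.of_forall fun x hx => ?_)
    exact (he x hx).symm
  · rw [h1]
    exact (setIntegral_congr_fun measurableSet_Icc he).symm

theorem pf_MOP (h : Pool.Agent.H33.HH.T_GLk) : T_MOP := by
  intro K _ _ _ P η hη
  obtain ⟨C, hC, hG, -, -⟩ := h K P
  refine ⟨max 2 (Real.exp (C / η)), le_max_left _ _, fun M k hM _ => ?_⟩
  have hM2 : (2 : ℝ) ≤ M := (le_max_left _ _).trans hM
  have hM1 : 1 ≤ M := by linarith
  have hM0 : 0 < M := by linarith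
  have hl : 0 ≤ Real.log M := Real.log_nonneg hM1
  have hCl : C ≤ η * Real.log M := by
    have h1 : C / η ≤ Real.log M := by
      rw [Real.le_log_iff_exp_le hM0]
      exact (le_max_right _ _).trans hM
    rwa [div_le_iff₀' hη] at h1
  have hb : ∀ x, 1 ≤ x → x ≤ M →
      |GS np (AP K P M) x - rk K P * Real.log x| ≤ η * Real.log M := by
    intro x hx1 hxM
    rw [GS_AP hxM]
    exact (hG x hx1).trans hCl
  rcases k with _ | k
  · have h2 := hb M hM1 le_rfl
    have h3 : ∑ D ∈ DP K P M, Real.log (M / nS np D) ^ 0 / fS np D = GS np (AP K P M) M := by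
      rw [GS]
      refine Finset.sum_congr rfl fun D _ => ?_
      rw [pow_zero, one_div]
    rw [h3]
    simpa using h2
  · obtain ⟨hi, hs⟩ := sum_eq' (K := K) (P := P) hM1 k
    rw [hs]
    have hc : IntegrableOn (fun x : ℝ => Real.log x * gk M k x) (Icc 1 M) := by
      refine ContinuousOn.integrableOn_Icc ?_
      refine ContinuousOn.mul (ContinuousOn.log continuousOn_id ?_) (gk_cont hM0 le_rfl k)
      intro x hx
      have : 0 < x := by linarith [hx.1]
      exact this.ne'
    have hg : IntegrableOn (gk M k) (Icc 1 M) := (gk_cont hM0 le_rfl k).integrableOn_Icc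
    have h4 : rk K P * Real.log M ^ (k + 1 + 1) / ((k + 1 : ℕ) + 1) =
        ∫ x in Icc 1 M, rk K P * (Real.log x * gk M k x) := by
      rw [integral_const_mul, int2 hM1 k]
      push_cast
      ring
    rw [h4, ← integral_sub hi (hc.const_mul _)]
    have h5 : η * Real.log M ^ (k + 1 + 1) =
        ∫ x in Icc 1 M, η * Real.log M * gk M k x := by
      rw [integral_const_mul, int1 le_rfl hM1 k, div_one]
      ring
    rw [h5, ← Real.norm_eq_abs]
    refine norm_integral_le_of_norm_le (hg.const_mul _) ?_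
    refine (ae_restrict_iff' measurableSet_Icc).2 (Filter.Eventually.of_forall fun x hx => ?_)
    have h6 := hb x hx.1 hx.2
    have h7 := gk_nonneg hx.1 hx.2 k
    have h8 : GS np (AP K P M) x * gk M k x - rk K P * (Real.log x * gk M k x) =
        (GS np (AP K P M) x - rk K P * Real.log x) * gk M k x := by ring
    rw [h8, norm_mul, Real.norm_eq_abs, Real.norm_eq_abs, abs_of_nonneg h7]
    exact mul_le_mul_of_nonneg_right h6 h7

end Pool.Agent.H1.HC
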